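import Pool.Agent.Helper93_ABCT.StmtI

/-!
# ALOC (MP_a17fcb_ag)

The lattice of regular forms at a valuation ring at which all coordinates are units and which is
stable under the partial derivatives.
-/

namespace PosGeom

namespace H18

theorem det_mem {K : Type} [Field K] {d : ℕ} (S : Subring K) (M : Matrix (Fin d) (Fin d) K)
    (h : ∀ i j, M i j ∈ S) : M.det ∈ S := by
  rw [Matrix.det_apply]
  refine S.sum_mem fun σ _ => ?_
  rw [Units.smul_def, zsmul_eq_mul]
  exact S.mul_mem (intCast_mem S _) (S.prod_mem fun i _ => h _ _)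

theorem aloc (hF : FoneStmt) : AlocStmt := by
  intro K _ _ d y O D hD hy hst f
  obtain ⟨-, -, hdW⟩ := hF K d y D hD
  have hprod : O.valuation (∏ j, y j) = 1 := by
    rw [map_prod]
    exact Finset.prod_eq_one fun j _ => hy j
  have hne : (∏ j, y j) ≠ 0 := by
    intro h0
    rw [h0, map_zero] at hprod
    exact zero_ne_one hprod
  have hmem : (∏ j, y j) ∈ O := (O.valuation_le_one_iff _).mp hprod.le
  have hmem' : (∏ j, y j)⁻¹ ∈ O := by
    apply (O.valuation_le_one_iff _).mp
    rw [map_inv₀, hprod, inv_one]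
  have hyO : ∀ j, y j ∈ O := fun j => (O.valuation_le_one_iff _).mp (hy j).le
  have hdy : dW y D = 1 := by
    rw [hdW]
    have : (Matrix.of fun i j => D i (y j)) = (1 : Matrix (Fin d) (Fin d) K) := by
      ext i j
      rw [Matrix.of_apply, hD.1 i j, Matrix.one_apply]
    rw [this, Matrix.det_one]
  constructor
  · rintro ⟨m, F, G, hFm, hGm, hE⟩
    have h1 := congrArg (fun η : Form K d => η D) hE
    have h2 : (f • dL y) D = f * (∏ j, y j)⁻¹ := by
      rw [AlternatingMap.smul_apply, dL, AlternatingMap.smul_apply, hdy, smul_eq_mul, smul_eq_mul,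
        mul_one]
    have h3 : (∑ k, F k • dW (G k)) D = ∑ k, F k * dW (G k) D := by
      let ev : Form K d →+ K :=
        { toFun := fun η => η D, map_zero' := rfl, map_add' := fun _ _ => rfl }
      exact map_sum ev _ _
    simp only [h2, h3] at h1
    have h4 : ∑ k, F k * dW (G k) D ∈ O := by
      refine O.toSubring.sum_mem fun k _ => ?_
      refine O.toSubring.mul_mem (hFm k) ?_
      rw [hdW]
      exact det_mem O.toSubring _ fun i j => hst i _ (hGm k j)
    have h5 : f = (∏ j, y j) * (f * (∏ j, y j)⁻¹) := by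
      field_simp
    rw [h5, h1]
    exact O.mul_mem _ _ hmem h4
  · intro hf
    refine ⟨1, fun _ => f * (∏ j, y j)⁻¹, fun _ => y, fun _ => O.mul_mem _ _ hf hmem',
      fun _ i => hyO i, ?_⟩
    rw [Fin.sum_univ_one, dL, smul_smul]

end H18

end PosGeom
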