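import Pool.Agent.Helper93_ABCT.StmtI

/-!
# ARES (MP_a17fcb_ag)

The residue of the logarithmic form.
-/

open MvPolynomial

namespace PosGeom

namespace H18

theorem gen_ne (hS : SgenStmt) {ι : Type} [Fintype ι] (C : PVar ι) : ∃ i, C.gen i ≠ 0 := by
  obtain ⟨h1, -⟩ := hS ι C
  obtain ⟨i, hi⟩ := C.rel
  refine ⟨i, fun h0 => hi ?_⟩
  rw [← h1, aeval_X]
  exact h0

theorem spec_at (hP : SpecStmt) (hS : SgenStmt) {ι : Type} [Fintype ι] {V C : PVar ι}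
    (hVC : V.I ≤ C.I) :
    (∀ f a b, V.SpecTo C.gen f a → V.SpecTo C.gen f b → a = b) ∧
    (∀ c : ℂ, V.SpecTo C.gen (algebraMap ℂ V.K c) (algebraMap ℂ C.Frac c)) ∧
    (∀ f g a b, V.SpecTo C.gen f a → V.SpecTo C.gen g b → V.SpecTo C.gen (f + g) (a + b)) ∧
    (∀ f g a b, V.SpecTo C.gen f a → V.SpecTo C.gen g b → V.SpecTo C.gen (f * g) (a * b)) ∧
    (∀ f a, V.SpecTo C.gen f a → V.SpecTo C.gen (-f) (-a)) ∧
    (∀ f a, V.SpecTo C.gen f a → a ≠ 0 → V.SpecTo C.gen f⁻¹ a⁻¹) := by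
  obtain ⟨h1, h2, h3, h4, h5, h6, -⟩ := hP ι V C.Frac C.gen
    (fun F hF => ((hS ι C).1 F).mpr (hVC hF)) (gen_ne hS C)
  exact ⟨h1, h2, h3, h4, h5, h6⟩

theorem spec_prod (hP : SpecStmt) (hS : SgenStmt) {ι : Type} [Fintype ι] {V C : PVar ι}
    (hVC : V.I ≤ C.I) {κ : Type} (s : Finset κ) (f : κ → V.K) (a : κ → C.Frac)
    (h : ∀ k ∈ s, V.SpecTo C.gen (f k) (a k)) :
    V.SpecTo C.gen (∏ k ∈ s, f k) (∏ k ∈ s, a k) := by
  classical
  obtain ⟨-, h2, -, h4, -, -⟩ := spec_at hP hS hVC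
  induction s using Finset.induction_on with
  | empty =>
    rw [Finset.prod_empty, Finset.prod_empty]
    have := h2 1
    rwa [map_one, map_one] at this
  | insert k s hk ih =>
    rw [Finset.prod_insert hk, Finset.prod_insert hk]
    exact h4 _ _ _ _ (h k (Finset.mem_insert_self _ _))
      (ih fun l hl => h l (Finset.mem_insert_of_mem hl))

theorem ares (hP : SpecStmt) (hS : SgenStmt) (hA : AdvrStmt) : AresStmt := by
  intro ι _ d V C y y' hyy c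
  obtain ⟨O, -, -, -, hdiv, -, -⟩ := hA ι d V C y y' hyy
  obtain ⟨h1, h2, h3, h4, h5, h6⟩ := spec_at hP hS hyy.sub
  have hy0 : y 0 ≠ 0 := hyy.cV.ind.ne_zero 0
  have hy'0 : ∀ j, (y' j : C.Frac) ≠ 0 := by
    intro j h0
    apply hyy.cC.ind.ne_zero j
    exact_mod_cast h0
  refine ⟨y 0, ⟨hy0, hyy.z, hdiv⟩, 1, fun _ => algebraMap ℂ V.K c * (∏ j : Fin d, (y j.succ)⁻¹),
    fun _ j => y j.succ, fun _ => algebraMap ℂ C.K c * ∏ j, (y' j)⁻¹, fun _ => y', ?_, ?_, ?_, ?_⟩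
  · intro _
    have e1 : ((algebraMap ℂ C.K c * ∏ j, (y' j)⁻¹ : C.K) : C.Frac) =
        algebraMap ℂ C.Frac c * ∏ j, ((y' j : C.Frac))⁻¹ := by
      push_cast
      rfl
    rw [e1]
    refine h4 _ _ _ _ (h2 c) (spec_prod hP hS hyy.sub _ _ _ fun k _ => ?_)
    exact h6 _ _ (hyy.s k) (hy'0 k)
  · intro _ j
    exact hyy.s j
  · rw [Fin.sum_univ_one]
    have e2 : (Fin.cons (y 0) (fun j : Fin d => y j.succ) : Fin (d + 1) → V.K) = y :=
      Fin.cons_self_tail y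
    rw [e2, dL, smul_smul, Fin.prod_univ_succ, mul_inv, Finset.prod_inv_distrib]
    congr 1
    ring
  · rw [Fin.sum_univ_one, dL, smul_smul, Finset.prod_inv_distrib]

end H18

end PosGeom
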