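import Pool.Agent.Helper93_ABCT.StmtI

/-!
# CFRM (MP_a17fcb_ag)

Frames in the cell.
-/

open MvPolynomial

namespace PosGeom

namespace H18

section

variable {σ : Type}

theorem map_evN {R S : Type} [CommSemiring R] [CommSemiring S] (f : R →+* S) (x : σ → R)
    (p : MvPolynomial σ ℕ) : f (evN x p) = evN (fun i => f (x i)) p := by
  rw [evN, evN, hom_eval₂]
  congr 1
  exact Subsingleton.elim _ _

theorem aeval_mapN {R : Type} [CommRing R] [Algebra ℂ R] (x : σ → R) (p : MvPolynomial σ ℕ) :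
    aeval x (map (Nat.castRingHom ℂ) p) = evN x p := by
  rw [aeval_def, eval₂_map, evN]
  congr 1
  exact Subsingleton.elim _ _

theorem evN_X (p : MvPolynomial σ ℕ) :
    evN (fun j => (X j : MvPolynomial σ ℂ)) p = map (Nat.castRingHom ℂ) p := by
  rw [← aeval_mapN, aeval_X_left, AlgHom.id_apply]

theorem evN_pos {x : σ → ℝ} (hx : ∀ i, 0 ≤ x i) {p : MvPolynomial σ ℕ} {μ : σ →₀ ℕ}
    (hμ : μ ∈ p.support) (hxμ : ∀ i ∈ μ.support, 0 < x i) : 0 < evN x p := by
  rw [evN, eval₂_eq]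
  have h0 : ∀ ν ∈ p.support, 0 ≤ (Nat.castRingHom ℝ) (coeff ν p) * ∏ i ∈ ν.support, x i ^ ν i := by
    intro ν _
    refine mul_nonneg ?_ (Finset.prod_nonneg fun i _ => pow_nonneg (hx i) _)
    simp
  refine Finset.sum_pos' h0 ⟨μ, hμ, ?_⟩
  refine mul_pos ?_ (Finset.prod_pos fun i hi => pow_pos (hxμ i hi) _)
  have : 0 < coeff μ p := Nat.pos_of_ne_zero (mem_support_iff.mp hμ)
  simpa using this

theorem evN_pos' {x : σ → ℝ} (hx : ∀ i, 0 < x i) {p : MvPolynomial σ ℕ} (hp : p ≠ 0) :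
    0 < evN x p := by
  obtain ⟨μ, hμ⟩ := support_nonempty.mpr hp
  exact evN_pos (fun i => (hx i).le) hμ fun i _ => hx i

end

section

variable {ι : Type} [Fintype ι]

theorem gen_ne_zero_iff (hS : SgenStmt) (V : PVar ι) (i : ι) :
    V.gen i ≠ 0 ↔ (X i : MvPolynomial ι ℂ) ∉ V.I := by
  obtain ⟨h1, -⟩ := hS ι V
  have := h1 (X i)
  rw [aeval_X] at this
  rw [Ne, this]

/-- the quotient of two coordinates -/
theorem exists_quot (hS : SgenStmt) (V : PVar ι) (i i0 : ι) (h0 : V.gen i0 ≠ 0) :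
    ∃ f : V.K, (f : V.Frac) = V.gen i / V.gen i0 ∧
      ∀ (L : Type) [Field L] [Algebra ℂ L] (ξ : ι → L), ξ i0 ≠ 0 →
        V.SpecTo ξ f (ξ i / ξ i0) := by
  refine ⟨⟨V.gen i / V.gen i0, IntermediateField.subset_adjoin _ _ ⟨i, i0, rfl⟩⟩, rfl, ?_⟩
  intro L _ _ ξ hξ
  refine ⟨1, X i, X i0, isHomogeneous_X _ _, isHomogeneous_X _ _, ?_, ?_, ?_⟩
  · rwa [aeval_X]
  · rw [aeval_X, aeval_X]
    exact div_mul_cancel₀ _ h0
  · rw [aeval_X, aeval_X]
    exact div_mul_cancel₀ _ hξ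

theorem coe_aeval (V : PVar ι) {τ : Type} (y : τ → V.K) (P : MvPolynomial τ ℂ) :
    ((aeval y P : V.K) : V.Frac) = aeval (fun j => (y j : V.Frac)) P := by
  have := map_aeval y (algebraMap V.K V.Frac) P
  rw [aeval_def, ← IntermediateField.coe_val, ← AlgHom.coe_toRingHom, hom_eval₂, aeval_def]
  congr 1

/-- coordinates of the generic point in terms of coordinates of the function field -/
theorem gen_eq (hS : SgenStmt) (V : PVar ι) {E : Type} [Field E] [Algebra ℂ E] (ξ : ι → E)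
    (e : V.K →ₐ[ℂ] E) (hE : ∀ f g, V.SpecTo ξ f g ↔ e f = g) {d : ℕ} (y : Fin d → V.K)
    (L : ι → MvPolynomial (Fin d) ℂ) (v : E) (hv : v ≠ 0)
    (h : ∀ i, ξ i = v * aeval (fun j => e (y j)) (L i)) (i0 : ι) (hξ : ξ i0 ≠ 0)
    (h0 : V.gen i0 ≠ 0) :
    ∃ u : V.Frac, u ≠ 0 ∧ ∀ i, V.gen i = u * aeval (fun j => (y j : V.Frac)) (L i) := by
  have hmap : ∀ P : MvPolynomial (Fin d) ℂ, e (aeval y P) = aeval (fun j => e (y j)) P := by
    intro P
    rw [← AlgHom.comp_apply, comp_aeval]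
  have hA0 : aeval (fun j => e (y j)) (L i0) ≠ 0 := by
    intro h1
    apply hξ
    rw [h i0, h1, mul_zero]
  have hB0 : (aeval y (L i0) : V.K) ≠ 0 := by
    intro h1
    apply hA0
    rw [← hmap, h1, map_zero]
  have hB0' : aeval (fun j => (y j : V.Frac)) (L i0) ≠ 0 := by
    rw [← coe_aeval]
    exact_mod_cast hB0
  refine ⟨V.gen i0 / aeval (fun j => (y j : V.Frac)) (L i0), div_ne_zero h0 hB0', fun i => ?_⟩
  obtain ⟨f, hf, hspec⟩ := exists_quot hS V i i0 h0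
  have h1 : e f = ξ i / ξ i0 := (hE _ _).mp (hspec E ξ hξ)
  have h2 : e f = e (aeval y (L i) / aeval y (L i0)) := by
    rw [h1, map_div₀, hmap, hmap, h i, h i0, mul_div_mul_left _ _ hv]
  have h3 : f = aeval y (L i) / aeval y (L i0) := e.toRingHom.injective h2
  have h4 : (f : V.Frac) = aeval (fun j => (y j : V.Frac)) (L i) /
      aeval (fun j => (y j : V.Frac)) (L i0) := by
    rw [h3, ← coe_aeval, ← coe_aeval]
    push_cast
    rfl
  rw [hf] at h4
  rw [div_mul_eq_mul_div, mul_div_assoc, ← h4, mul_div_cancel₀ _ h0]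

/-- values of polynomials -/
theorem val_aeval (hP : SpecStmt) (V : PVar ι) {z : ι → ℝ} (hz : z ∈ V.RP) {d : ℕ}
    (y : Fin d → V.K) (x : Fin d → ℂ) (h : ∀ j, V.Val z (y j) (x j)) (P : MvPolynomial (Fin d) ℂ) :
    V.Val z (aeval y P) (aeval x P) := by
  have hz0 : ∃ i, ((z i : ℝ) : ℂ) ≠ 0 := by
    obtain ⟨i, hi⟩ := Function.ne_iff.mp hz.1
    exact ⟨i, by simpa using hi⟩
  obtain ⟨-, h2, h3, h4, -⟩ := hP ι V ℂ (fun i => ((z i : ℝ) : ℂ)) hz.2 hz0
  induction P using MvPolynomial.induction_on with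
  | C a =>
    rw [aeval_C, aeval_C]
    exact h2 a
  | add p q hp hq =>
    rw [map_add, map_add]
    exact h3 _ _ _ _ hp hq
  | mul_X p j hp =>
    rw [map_mul, map_mul, aeval_X, aeval_X]
    exact h4 _ _ _ _ hp (h j)

/-- frames from polynomial parametrizations -/
theorem frame_main (hP : SpecStmt) (hS : SgenStmt) (hF : FrmgStmt)
    (V : PVar ι) {z : ι → ℝ} (hz : z ∈ V.RP) {d : ℕ}
    (y : Fin d → V.K) (x : Fin d → ℝ) (L : ι → MvPolynomial (Fin d) ℂ) (u : V.Frac) (hu : u ≠ 0)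
    (hgen : ∀ i, V.gen i = u * aeval (fun j => (y j : V.Frac)) (L i))
    (hr : ∀ j, V.RVal z (y j) (x j)) (hv : ∀ j, V.Val z (y j) (x j))
    (i1 : ι) (h1 : aeval (fun j => ((x j : ℝ) : ℂ)) (L i1) ≠ 0) : IsFrame V d z y := by
  obtain ⟨i0, hi0⟩ := Function.ne_iff.mp hz.1
  have hzi : ((z i0 : ℝ) : ℂ) ≠ 0 := by simpa using hi0
  have hg0 : V.gen i0 ≠ 0 := by
    rw [gen_ne_zero_iff hS]
    intro hX
    have := hz.2 _ hX
    rw [aeval_X] at this
    exact hzi this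
  obtain ⟨hU, -, -, h4, -⟩ := hP ι V ℂ (fun i => ((z i : ℝ) : ℂ)) hz.2 ⟨i0, hzi⟩
  have key : ∀ i, ((z i : ℝ) : ℂ) / ((z i0 : ℝ) : ℂ) * aeval (fun j => ((x j : ℝ) : ℂ)) (L i0) =
      aeval (fun j => ((x j : ℝ) : ℂ)) (L i) := by
    intro i
    obtain ⟨f, hf, hspec⟩ := exists_quot hS V i i0 hg0
    have e1 := hspec ℂ (fun i => ((z i : ℝ) : ℂ)) hzi
    have e2 : f * aeval y (L i0) = aeval y (L i) := by
      have e3 : ((f * aeval y (L i0) : V.K) : V.Frac) = ((aeval y (L i) : V.K) : V.Frac) := by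
        rw [MulMemClass.coe_mul, coe_aeval, coe_aeval, hf, hgen i]
        have e4 := hgen i0
        rw [div_mul_eq_mul_div, div_eq_iff hg0, e4]
        ring
      exact_mod_cast e3
    have e5 := h4 _ _ _ _ e1 (val_aeval hP V hz y _ hv (L i0))
    rw [e2] at e5
    exact hU _ _ _ e5 (val_aeval hP V hz y _ hv (L i))
  have hL0 : aeval (fun j => ((x j : ℝ) : ℂ)) (L i0) ≠ 0 := by
    intro h0
    apply h1
    rw [← key i1, h0, mul_zero]
  refine hF ι d V y L u x z (((z i0 : ℝ) : ℂ) / aeval (fun j => ((x j : ℝ) : ℂ)) (L i0)) hu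
    (div_ne_zero hzi hL0) hz hgen (fun i => ?_) hr
  rw [← key i]
  field_simp

end

section

variable {ι : Type} [Fintype ι] {d : ℕ} (N : NCell ι d)

theorem hom_eval (z : ι → ℝ) (τ : ℝ) (x : Fin d → ℝ) (hz : ∀ i, z i = τ * evN x (N.L i))
    (F : MvPolynomial ι ℂ) :
    Polynomial.eval₂RingHom (aeval (fun j => ((x j : ℝ) : ℂ)) :
      MvPolynomial (Fin d) ℂ →ₐ[ℂ] ℂ).toRingHom ((τ : ℝ) : ℂ) (N.hom F) =
      aeval (fun i => ((z i : ℝ) : ℂ)) F := by
  induction F using MvPolynomial.induction_on with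
  | C a =>
    rw [NCell.hom, aeval_C, aeval_C, Polynomial.algebraMap_apply, MvPolynomial.algebraMap_eq]
    simp
  | add p q hp hq => rw [map_add, map_add, hp, hq, map_add]
  | mul_X p i hp =>
    rw [map_mul, map_mul, hp, map_mul, aeval_X]
    congr 1
    rw [NCell.hom, aeval_X, hz i, map_mul, evN_X]
    have h1 : ((evN x (N.L i) : ℝ) : ℂ) = evN (fun j => ((x j : ℝ) : ℂ)) (N.L i) :=
      map_evN Complex.ofRealHom x (N.L i)
    rw [Complex.ofReal_mul, h1, ← aeval_mapN]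
    simp

theorem cell_RP (z : ι → ℝ) (τ : ℝ) (x : Fin d → ℝ) (hτ : τ ≠ 0) (hx : ∀ j, 0 < x j)
    (hz : ∀ i, z i = τ * evN x (N.L i)) : z ∈ N.var.RP := by
  constructor
  · intro h0
    obtain ⟨i, hi⟩ := N.ne
    have h1 := hz i
    rw [h0, Pi.zero_apply] at h1
    exact mul_ne_zero hτ (evN_pos' hx hi).ne' h1.symm
  · intro F hF
    rw [← hom_eval N z τ x hz F]
    have hF' : N.hom F = 0 := hF
    rw [hF', map_zero]

/-- the algebra behind monomials of degree zero -/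
theorem mon_split {K : Type} [Field K] (n : ι → ℤ) (p : ι → K) (hp : ∀ i, n i ≠ 0 → p i ≠ 0) :
    (∏ i, p i ^ n i) * ∏ i, p i ^ (-(n i)).toNat = ∏ i, p i ^ (n i).toNat := by
  rw [← Finset.prod_mul_distrib]
  refine Finset.prod_congr rfl fun i _ => ?_
  by_cases h : n i = 0
  · rw [h]; simp
  · have hpi := hp i h
    rw [← zpow_natCast, ← zpow_natCast, ← zpow_add₀ hpi]
    congr 1
    omega

theorem deg_split (n : ι → ℤ) (h : ∑ i, n i = 0) :
    ∑ i, (-(n i)).toNat = ∑ i, (n i).toNat := by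
  have h1 : ∀ i, ((n i).toNat : ℤ) - ((-(n i)).toNat : ℤ) = n i := fun i => by omega
  have h2 : ((∑ i, (n i).toNat : ℕ) : ℤ) - ((∑ i, (-(n i)).toNat : ℕ) : ℤ) = 0 := by
    push_cast
    rw [← Finset.sum_sub_distrib, ← h]
    exact Finset.sum_congr rfl fun i _ => by
      have := h1 i
      push_cast at this
      exact this
  omega

theorem homog_mon {R : Type} [CommRing R] (m : ι → ℕ) :
    (∏ i, (X i : MvPolynomial ι R) ^ m i).IsHomogeneous (∑ i, m i) := by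
  apply IsHomogeneous.prod
  intro i _
  have := (isHomogeneous_X R i).pow (m i)
  rwa [one_mul] at this

theorem chRVal (hP : SpecStmt) (hS : SgenStmt) (hC : CfldStmt) (e : N.var.K ≃ₐ[ℂ] Fd d)
    (hG : N.Good) (hE : N.IsE e) (z : ι → ℝ) (τ : ℝ) (x : Fin d → ℝ) (hτ : τ ≠ 0)
    (hx : ∀ j, 0 < x j) (hz : ∀ i, z i = τ * evN x (N.L i)) (j : Fin d) :
    N.var.RVal z (N.ch e j) (x j) := by
  classical
  obtain ⟨n, hn, hsum, hy⟩ := hG j
  have hM : ∀ i, n i ≠ 0 → N.L i ≠ 0 := by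
    intro i hi h0
    exact hi (hn i fun h => h h0)
  have hLF : ∀ i, n i ≠ 0 → N.LF i ≠ 0 := by
    intro i hi h0
    have h1 : N.LF i = algebraMap (MvPolynomial (Fin d) ℂ) (Fd d)
        (map (Nat.castRingHom ℂ) (N.L i)) := by
      rw [← evN_X, map_evN]
      rfl
    rw [h1] at h0
    have h2 := (IsFractionRing.injective (MvPolynomial (Fin d) ℂ) (Fd d)) (h0.trans (map_zero _).symm)
    exact hM i hi (map_injective (Nat.castRingHom ℂ) Nat.cast_injective (by rw [h2, map_zero]))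
  have hzn : ∀ i, n i ≠ 0 → z i ≠ 0 := by
    intro i hi
    rw [hz i]
    exact mul_ne_zero hτ (evN_pos' hx (hM i hi)).ne'
  set F : MvPolynomial ι ℝ := ∏ i, X i ^ (n i).toNat with hF
  set G : MvPolynomial ι ℝ := ∏ i, X i ^ (-(n i)).toNat with hGd
  have hFh : F.IsHomogeneous (∑ i, (n i).toNat) := homog_mon _
  have hGh : G.IsHomogeneous (∑ i, (n i).toNat) := by
    rw [← deg_split n hsum]
    exact homog_mon _
  have hmapF : map Complex.ofRealHom F = ∏ i, (X i : MvPolynomial ι ℂ) ^ (n i).toNat := by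
    rw [hF, map_prod]
    simp
  have hmapG : map Complex.ofRealHom G = ∏ i, (X i : MvPolynomial ι ℂ) ^ (-(n i)).toNat := by
    rw [hGd, map_prod]
    simp
  have hGz : eval z G ≠ 0 := by
    rw [hGd, map_prod]
    refine Finset.prod_ne_zero_iff.mpr fun i _ => ?_
    rw [map_pow, eval_X]
    by_cases h : n i = 0
    · rw [h]; simp
    · exact pow_ne_zero _ (hzn i h)
  have hFC : (map Complex.ofRealHom F).IsHomogeneous (∑ i, (n i).toNat) := hFh.map _
  have hGC : (map Complex.ofRealHom G).IsHomogeneous (∑ i, (n i).toNat) := hGh.map _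
  have haF : ∀ {R : Type} [CommRing R] [Algebra ℂ R] (p : ι → R),
      aeval p (map Complex.ofRealHom F) = ∏ i, p i ^ (n i).toNat := by
    intro R _ _ p
    rw [hmapF, map_prod]
    simp
  have haG : ∀ {R : Type} [CommRing R] [Algebra ℂ R] (p : ι → R),
      aeval p (map Complex.ofRealHom G) = ∏ i, p i ^ (-(n i)).toNat := by
    intro R _ _ p
    rw [hmapG, map_prod]
    simp
  have hGL : aeval N.LF (map Complex.ofRealHom G) ≠ 0 := by
    rw [haG]
    refine Finset.prod_ne_zero_iff.mpr fun i _ => ?_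
    by_cases h : n i = 0
    · rw [h]; simp
    · exact pow_ne_zero _ (hLF i h)
  have hvan : ∀ F ∈ N.var.I, aeval N.LF F = 0 := by
    intro F hF
    obtain ⟨-, -, -, h4⟩ := hC ι d N hG
    rw [← sum_homogeneousComponent F, map_sum]
    refine Finset.sum_eq_zero fun m _ => ?_
    exact (h4 _ m (homogeneousComponent_isHomogeneous m F)).mpr (N.var.homog F hF m)
  have hLFne : ∃ i, N.LF i ≠ 0 := by
    obtain ⟨i, hi⟩ := N.ne
    refine ⟨i, fun h0 => ?_⟩
    have h1 : N.LF i = algebraMap (MvPolynomial (Fin d) ℂ) (Fd d)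
        (map (Nat.castRingHom ℂ) (N.L i)) := by
      rw [← evN_X, map_evN]
      rfl
    rw [h1] at h0
    have h2 := (IsFractionRing.injective (MvPolynomial (Fin d) ℂ) (Fd d)) (h0.trans (map_zero _).symm)
    exact hi (map_injective (Nat.castRingHom ℂ) Nat.cast_injective (by rw [h2, map_zero]))
  obtain ⟨-, -, -, -, -, -, h7, -⟩ := hP ι N.var (Fd d) N.LF hvan hLFne
  obtain ⟨f, hf1, hf2⟩ := h7 _ _ _ hFC hGC hGL
  have hf3 : e f = yv d j := by
    rw [(hE _ _).mp hf2, hy, haF, haG, ← mon_split n N.LF hLF, mul_div_cancel_right₀]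
    rw [← haG]
    exact hGL
  have hf4 : f = N.ch e j := by
    rw [NCell.ch, ← hf3, AlgEquiv.symm_apply_apply]
  refine ⟨_, F, G, hFh, hGh, hGz, ?_, ?_⟩
  · rw [← hf4]
    exact hf1
  · -- the identity between polynomials, evaluated at x
    have e1 : (X j : MvPolynomial (Fin d) ℂ) *
        ∏ i, (map (Nat.castRingHom ℂ) (N.L i)) ^ (-(n i)).toNat =
        ∏ i, (map (Nat.castRingHom ℂ) (N.L i)) ^ (n i).toNat := by
      apply IsFractionRing.injective (MvPolynomial (Fin d) ℂ) (Fd d)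
      rw [map_mul, map_prod, map_prod]
      have e2 : ∀ i, algebraMap (MvPolynomial (Fin d) ℂ) (Fd d)
          (map (Nat.castRingHom ℂ) (N.L i)) = N.LF i := by
        intro i
        rw [← evN_X, map_evN]
        rfl
      simp only [map_pow, e2]
      rw [← mon_split n N.LF hLF, ← hy]
      rfl
    have e3 := congrArg (aeval (fun j => ((x j : ℝ) : ℂ))) e1
    rw [map_mul, map_prod, map_prod, aeval_X] at e3
    simp only [map_pow, aeval_mapN] at e3
    have e4 : ∀ i, evN (fun j => ((x j : ℝ) : ℂ)) (N.L i) = ((evN x (N.L i) : ℝ) : ℂ) :=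
      fun i => (map_evN Complex.ofRealHom x (N.L i)).symm
    simp only [e4] at e3
    have e5 : x j * ∏ i, (evN x (N.L i)) ^ (-(n i)).toNat = ∏ i, (evN x (N.L i)) ^ (n i).toNat := by
      exact_mod_cast e3
    have e6 : ∀ m : ι → ℕ, ∏ i, z i ^ m i = τ ^ (∑ i, m i) * ∏ i, (evN x (N.L i)) ^ m i := by
      intro m
      rw [← Finset.prod_pow_eq_pow_sum, ← Finset.prod_mul_distrib]
      exact Finset.prod_congr rfl fun i _ => by rw [hz i, mul_pow]
    have e7 : eval z F = ∏ i, z i ^ (n i).toNat := by rw [hF, map_prod]; simp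
    have e8 : eval z G = ∏ i, z i ^ (-(n i)).toNat := by rw [hGd, map_prod]; simp
    rw [e7, e8, e6, e6, deg_split n hsum, ← e5]
    ring

theorem cfrm (hP : SpecStmt) (hS : SgenStmt) (hR : SrealStmt) (hC : CfldStmt) (hF : FrmgStmt) :
    CfrmStmt := by
  intro ι _ d N e hG hE z τ x hτ hx hz
  have hzRP := cell_RP N z τ x hτ hx hz
  have hrv := chRVal N hP hS hC e hG hE z τ x hτ hx hz
  refine ⟨hzRP, ?_, hrv⟩
  have hv : ∀ j, N.var.Val z (N.ch e j) (x j) := fun j => (hR ι N.var z hzRP).1 _ _ (hrv j)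
  obtain ⟨i0, hi0⟩ := N.var.rel
  have hg0 : N.var.gen i0 ≠ 0 := (gen_ne_zero_iff hS _ _).mpr hi0
  obtain ⟨-, -, -, h4⟩ := hC ι d N hG
  have hLF0 : N.LF i0 ≠ 0 := by
    intro h0
    apply hi0
    rw [← h4 (X i0) 1 (isHomogeneous_X _ _), aeval_X]
    exact h0
  have hgl : ∀ i, N.LF i = 1 * aeval (fun j => (e : N.var.K →ₐ[ℂ] Fd d) (N.ch e j))
      (map (Nat.castRingHom ℂ) (N.L i)) := by
    intro i
    rw [one_mul, aeval_mapN]
    have : (fun j => (e : N.var.K →ₐ[ℂ] Fd d) (N.ch e j)) = yv d := by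
      funext j
      exact AlgEquiv.apply_symm_apply e (yv d j)
    rw [this]
    rfl
  obtain ⟨u, hu, hgen⟩ := gen_eq hS N.var N.LF (e : N.var.K →ₐ[ℂ] Fd d) hE (N.ch e)
    (fun i => map (Nat.castRingHom ℂ) (N.L i)) 1 one_ne_zero hgl i0 hLF0 hg0
  obtain ⟨i1, hi1⟩ := N.ne
  refine frame_main hP hS hF N.var hzRP (N.ch e) x _ u hu hgen hrv hv i1 ?_
  rw [aeval_mapN]
  have e4 : evN (fun j => ((x j : ℝ) : ℂ)) (N.L i1) = ((evN x (N.L i1) : ℝ) : ℂ) :=
    (map_evN Complex.ofRealHom x (N.L i1)).symm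
  rw [e4]
  exact_mod_cast (evN_pos' hx hi1).ne'

end

end H18

end PosGeom
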