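import Pool.Agent.Helper93_ABCT.StmtI

/-!
# FDER (MP_a17fcb_ag)

The partial derivatives.
-/

open MvPolynomial

namespace PosGeom

namespace H18

variable {K : Type} [Field K] [Algebra ℂ K] {d : ℕ}

/-- a derivation is determined by its values on generators of the field -/
theorem der_ext {y : Fin d → K} (hy : IntermediateField.adjoin ℂ (Set.range y) = ⊤)
    (D1 D2 : Derivation ℂ K K) (h : ∀ i, D1 (y i) = D2 (y i)) : D1 = D2 := by
  have hp : ∀ r : MvPolynomial (Fin d) ℂ, D1 (aeval y r) = D2 (aeval y r) := by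
    intro r
    have h1 : Set.EqOn D1 D2 (Set.range y) := by
      rintro _ ⟨i, rfl⟩
      exact h i
    have h2 := Derivation.eqOn_adjoin h1
    apply h2
    rw [Algebra.adjoin_range_eq_range_aeval]
    exact ⟨r, rfl⟩
  ext x
  have hx : x ∈ IntermediateField.adjoin ℂ (Set.range y) := by
    rw [hy]
    exact IntermediateField.mem_top
  rw [IntermediateField.mem_adjoin_range_iff] at hx
  obtain ⟨r, s, rfl⟩ := hx
  rw [Derivation.leibniz_div, Derivation.leibniz_div, hp r, hp s]

/-- extension of derivations from polynomials -/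
theorem exists_der {y : Fin d → K} (hy : IsCoord y) (c : Fin d → K) :
    ∃ D : Derivation ℂ K K, ∀ j, D (y j) = c j := by
  let _ : Algebra (MvPolynomial (Fin d) ℂ) K := (aeval y).toRingHom.toAlgebra
  have halg : ∀ p : MvPolynomial (Fin d) ℂ, algebraMap (MvPolynomial (Fin d) ℂ) K p = aeval y p :=
    fun p => rfl
  have _ : IsScalarTower ℂ (MvPolynomial (Fin d) ℂ) K := IsScalarTower.of_algebraMap_eq fun r => by
    rw [halg, MvPolynomial.algebraMap_eq, aeval_C]
  have hinj : Function.Injective (algebraMap (MvPolynomial (Fin d) ℂ) K) := hy.ind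
  have _ : FaithfulSMul (MvPolynomial (Fin d) ℂ) K :=
    (faithfulSMul_iff_algebraMap_injective _ _).mpr hinj
  have _ : IsFractionRing (MvPolynomial (Fin d) ℂ) K := by
    apply IsFractionRing.of_field
    intro z
    have hz : z ∈ IntermediateField.adjoin ℂ (Set.range y) := by
      rw [hy.gen]
      exact IntermediateField.mem_top
    rw [IntermediateField.mem_adjoin_range_iff] at hz
    obtain ⟨r, s, rfl⟩ := hz
    exact ⟨r, s, rfl⟩
  have _ : Algebra.FormallyEtale (MvPolynomial (Fin d) ℂ) K :=
    Algebra.FormallyEtale.of_isLocalization (nonZeroDivisors (MvPolynomial (Fin d) ℂ))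
  have hB := KaehlerDifferential.isBaseChange_of_formallyEtale ℂ (MvPolynomial (Fin d) ℂ) K
  let δ : Derivation ℂ (MvPolynomial (Fin d) ℂ) K := mkDerivation ℂ c
  let ℓ : Ω[K⁄ℂ] →ₗ[K] K := hB.lift δ.liftKaehlerDifferential
  refine ⟨ℓ.compDer (KaehlerDifferential.D ℂ K), fun j => ?_⟩
  have h1 : (KaehlerDifferential.D ℂ K) (y j) =
      KaehlerDifferential.map ℂ ℂ (MvPolynomial (Fin d) ℂ) K
        (KaehlerDifferential.D ℂ (MvPolynomial (Fin d) ℂ) (X j)) := by
    rw [KaehlerDifferential.map_D, halg, aeval_X]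
  change ℓ ((KaehlerDifferential.D ℂ K) (y j)) = c j
  rw [h1, hB.lift_eq, Derivation.liftKaehlerDifferential_comp_D]
  exact mkDerivation_X _ _ _

theorem fder : FderStmt := by
  intro K _ _ d y hy
  choose D hD using fun i : Fin d => exists_der hy (fun j => if i = j then 1 else 0)
  refine ⟨D, hD, fun D' => ?_⟩
  apply der_ext hy.gen
  intro j
  have h2 : (∑ i, D' (y i) • D i) (y j) = ∑ i, D' (y i) * D i (y j) := by
    rw [← Derivation.coeFnAddMonoidHom_apply, map_sum, Finset.sum_apply]
    rfl
  rw [h2, Finset.sum_eq_single j]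
  · rw [hD j j, if_pos rfl, mul_one]
  · intro i _ hij
    rw [hD i j, if_neg hij, mul_zero]
  · intro hj
    exact absurd (Finset.mem_univ j) hj

end H18

end PosGeom
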