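import Pool.Agent.Helper93_ABCT.StmtI

/-!
# FONE (MP_a17fcb_ag)

Forms in terms of dual derivations.
-/

namespace PosGeom

namespace H18

variable {K : Type} [Field K] [Algebra ℂ K] {d : ℕ}

theorem dW_apply (g : Fin d → K) (D : Fin d → Derivation ℂ K K) :
    dW g D = (Matrix.of fun i j => D i (g j)).det := rfl

theorem linIndep_of_dual {y : Fin d → K} {D : Fin d → Derivation ℂ K K} (h : IsDual y D) :
    LinearIndependent K D := by
  rw [Fintype.linearIndependent_iff]
  intro c hc j
  have h1 := congrArg (fun E : Derivation ℂ K K => E (y j)) hc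
  simp only [Derivation.coe_zero, Pi.zero_apply] at h1
  have h2 : (∑ i, c i • D i) (y j) = ∑ i, c i * D i (y j) := by
    rw [← Derivation.coeFnAddMonoidHom_apply, map_sum, Finset.sum_apply]
    rfl
  rw [h2] at h1
  have h3 : ∑ i, c i * D i (y j) = c j := by
    rw [Finset.sum_eq_single j]
    · rw [h.1 j j, if_pos rfl, mul_one]
    · intro i _ hij
      rw [h.1 i j, if_neg hij, mul_zero]
    · intro hj
      exact absurd (Finset.mem_univ j) hj
  rw [h3] at h1
  exact h1

theorem span_of_dual {y : Fin d → K} {D : Fin d → Derivation ℂ K K} (h : IsDual y D) :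
    (⊤ : Submodule K (Derivation ℂ K K)) ≤ Submodule.span K (Set.range D) := by
  intro D' _
  rw [h.2 D']
  exact Submodule.sum_mem _ fun i _ =>
    Submodule.smul_mem _ _ (Submodule.subset_span ⟨i, rfl⟩)

theorem fone : FoneStmt := by
  intro K _ _ d y D hD
  have h1 : dW y D = 1 := by
    rw [dW_apply]
    have : (Matrix.of fun i j => D i (y j)) = (1 : Matrix (Fin d) (Fin d) K) := by
      ext i j
      rw [Matrix.of_apply, hD.1 i j, Matrix.one_apply]
    rw [this, Matrix.det_one]
  refine ⟨?_, ?_, fun g => dW_apply g D⟩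
  · intro h0
    rw [h0] at h1
    exact zero_ne_one h1
  · intro ω
    let b : Module.Basis (Fin d) K (Derivation ℂ K K) :=
      Module.Basis.mk (linIndep_of_dual hD) (span_of_dual hD)
    have hb : (b : Fin d → Derivation ℂ K K) = D := Module.Basis.coe_mk _ _
    have e1 := AlternatingMap.eq_smul_basis_det b ω
    have e2 := AlternatingMap.eq_smul_basis_det b (dW y)
    rw [hb] at e1 e2
    rw [h1, one_smul] at e2
    rw [e2]
    exact e1

end H18

end PosGeom
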