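import Pool.Agent.Helper93_ABCT.StmtK
import Pool.Agent.Helper32_ABCT.Api2
import Pool.Agent.Helper18_ABCT.Cfrm

/-!
# KPRP (MP_a17fcb_ag)

Properties of normal forms of flat cells.
-/

open MvPolynomial

namespace PosGeom

namespace H18

open ABCT ABCT.FlatCell

/-! ### degree zero Laurent monomials in finitely many coordinates -/

section MonI

variable {ι : Type} [Fintype ι] {K : Type} [Field K] {M' : Set ι} {p : ι → K}

theorem monI_one : (1 : K) ∈ MonI M' p := ⟨fun _ => 0, fun _ _ => rfl, by simp, by simp⟩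

theorem monI_mul (hp : ∀ i ∈ M', p i ≠ 0) {f g : K} (hf : f ∈ MonI M' p) (hg : g ∈ MonI M' p) :
    f * g ∈ MonI M' p := by
  obtain ⟨n, hn0, hn, rfl⟩ := hf
  obtain ⟨m, hm0, hm, rfl⟩ := hg
  refine ⟨fun i => n i + m i, fun i hi => by
      show n i + m i = 0
      rw [hn0 i hi, hm0 i hi, add_zero],
    by rw [Finset.sum_add_distrib, hn, hm, add_zero], ?_⟩
  rw [← Finset.prod_mul_distrib]
  refine Finset.prod_congr rfl fun i _ => ?_
  show p i ^ n i * p i ^ m i = p i ^ (n i + m i)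
  by_cases hi : i ∈ M'
  · exact (zpow_add₀ (hp i hi) _ _).symm
  · rw [hn0 i hi, hm0 i hi]; simp

theorem monI_pow (hp : ∀ i ∈ M', p i ≠ 0) {f : K} (hf : f ∈ MonI M' p) (n : ℕ) :
    f ^ n ∈ MonI M' p := by
  induction n with
  | zero => simpa using monI_one
  | succ n ih => rw [pow_succ]; exact monI_mul hp ih hf

theorem monI_prod (hp : ∀ i ∈ M', p i ≠ 0) {κ : Type} (s : Finset κ) (f : κ → K)
    (hf : ∀ i ∈ s, f i ∈ MonI M' p) : ∏ i ∈ s, f i ∈ MonI M' p := by
  classical
  induction s using Finset.induction_on with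
  | empty => simpa using monI_one
  | insert a s ha ih =>
    rw [Finset.prod_insert ha]
    exact monI_mul hp (hf a (Finset.mem_insert_self _ _))
      (ih fun i hi => hf i (Finset.mem_insert_of_mem hi))

end MonI

theorem LF_ne {ι : Type} {d : ℕ} (N : NCell ι d) {i : ι} (hi : N.L i ≠ 0) : N.LF i ≠ 0 := by
  intro h0
  have h1 : N.LF i = algebraMap (MvPolynomial (Fin d) ℂ) (Fd d)
      (map (Nat.castRingHom ℂ) (N.L i)) := by
    rw [← evN_X, map_evN]
    rfl
  rw [h1] at h0
  have h2 := (IsFractionRing.injective (MvPolynomial (Fin d) ℂ) (Fd d)) (h0.trans (map_zero _).symm)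
  exact hi (map_injective (Nat.castRingHom ℂ) Nat.cast_injective (by rw [h2, map_zero]))

/-- the embedding of the field of chart variables -/
theorem exists_Phi (hK : KmonStmt) (S : FlatCell) {d : ℕ} (b : Fin d → (S.V →₀ ℤ))
    (hb : LinearIndependent ℤ b) : ∃ Φ : Fd d →ₐ[ℂ] S.F, ∀ j, Φ (yv d j) = S.mono (b j) := by
  have hx : AlgebraicIndependent ℂ S.x := by
    have h1 := (MvPolynomial.algebraicIndependent_X S.V ℂ).map'
      (f := IsScalarTower.toAlgHom ℂ (MvPolynomial S.V ℂ) S.F)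
      (IsFractionRing.injective (MvPolynomial S.V ℂ) S.F)
    exact h1
  have hind : AlgebraicIndependent ℂ fun j => S.mono (b j) := hK S.F S.V S.x hx d b hb
  have hinj : Function.Injective (aeval fun j => S.mono (b j) :
    MvPolynomial (Fin d) ℂ →ₐ[ℂ] S.F) := hind
  refine ⟨IsFractionRing.liftAlgHom (A := MvPolynomial (Fin d) ℂ) (K := Fd d) hinj, fun j => ?_⟩
  rw [IsFractionRing.liftAlgHom_apply, yv, IsFractionRing.lift_algebraMap]
  exact aeval_X _ j

section

variable {ι : Type} [Fintype ι] {emb : ι → Finset ℕ} {S : FlatCell}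

theorem reindex_prod (hO : FOk emb S) {A : Type} [CommMonoid A] (f : Finset ℕ → A) :
    ∏ I ∈ S.M, f I = ∏ i : ι, if emb i ∈ S.M then f (emb i) else 1 := by
  classical
  have h1 : S.M = (Finset.univ.filter fun i => emb i ∈ S.M).image emb := by
    ext I
    rw [Finset.mem_image]
    constructor
    · intro hI
      obtain ⟨i, rfl⟩ := hO.sub I hI
      exact ⟨i, Finset.mem_filter.mpr ⟨Finset.mem_univ _, hI⟩, rfl⟩
    · rintro ⟨i, hi, rfl⟩
      exact (Finset.mem_filter.mp hi).2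
  rw [← Finset.prod_filter]
  conv_lhs => rw [h1]
  exact Finset.prod_image fun i _ j _ h => hO.inj h

theorem reindex_sum (hO : FOk emb S) (f : Finset ℕ → ℤ) :
    ∑ I ∈ S.M, f I = ∑ i : ι, if emb i ∈ S.M then f (emb i) else 0 := by
  classical
  have h1 : S.M = (Finset.univ.filter fun i => emb i ∈ S.M).image emb := by
    ext I
    rw [Finset.mem_image]
    constructor
    · intro hI
      obtain ⟨i, rfl⟩ := hO.sub I hI
      exact ⟨i, Finset.mem_filter.mpr ⟨Finset.mem_univ _, hI⟩, rfl⟩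
    · rintro ⟨i, hi, rfl⟩
      exact (Finset.mem_filter.mp hi).2
  rw [← Finset.sum_filter]
  conv_lhs => rw [h1]
  exact Finset.sum_image fun i _ j _ h => hO.inj h

variable {d : ℕ} {N : NCell ι d} {b : Fin d → (S.V →₀ ℤ)} {ν : S.V →₀ ℤ}
  {Φ : Fd d →ₐ[ℂ] S.F}

theorem Phi_LF (hΦ : ∀ j, Φ (yv d j) = S.mono (b j)) (i : ι) :
    Φ (N.LF i) = evN (fun j => S.mono (b j)) (N.L i) := by
  have h1 := map_evN (Φ : Fd d →+* S.F) (yv d) (N.L i)
  simp only [AlgHom.coe_toRingHom, RingHom.coe_coe, hΦ] at h1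
  exact h1

theorem P_ne (hO : FOk emb S) {I : Finset ℕ} (hI : I ∈ S.M) : S.P I ≠ 0 :=
  P_ne_zero S I ((hO.wf.ne I).mpr hI)

theorem mem_M_iff (hO : FOk emb S) (hΦ : ∀ j, Φ (yv d j) = S.mono (b j))
    (hν : ∀ i, S.P (emb i) = S.mono ν * evN (fun j => S.mono (b j)) (N.L i)) (i : ι) :
    i ∈ N.M ↔ emb i ∈ S.M := by
  constructor
  · intro hi
    rw [← hO.wf.ne]
    intro h0
    have h1 := P_eq_zero S (emb i) h0
    rw [hν i, ← Phi_LF hΦ] at h1
    rcases mul_eq_zero.mp h1 with h2 | h2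
    · exact lmono_ne_zero xx xx_ne_zero ν h2
    · exact LF_ne N hi (Φ.toRingHom.injective (h2.trans (map_zero _).symm))
  · intro hi h0
    apply P_ne hO hi
    rw [hν i, h0, evN, eval₂_zero, mul_zero]

/-- degree zero monomials come from degree zero monomials -/
theorem transfer (hO : FOk emb S) (hΦ : ∀ j, Φ (yv d j) = S.mono (b j))
    (hν : ∀ i, S.P (emb i) = S.mono ν * evN (fun j => S.mono (b j)) (N.L i)) {f : S.F}
    (hf : f ∈ Mon S.M S.P) : ∃ g ∈ MonI N.M N.LF, Φ g = f := by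
  classical
  obtain ⟨n, hn, rfl⟩ := hf
  set n' : ι → ℤ := fun i => if emb i ∈ S.M then n (emb i) else 0 with hn'
  refine ⟨∏ i, N.LF i ^ n' i, ⟨n', ?_, ?_, rfl⟩, ?_⟩
  · intro i hi
    rw [mem_M_iff hO hΦ hν] at hi
    simp only [hn', if_neg hi]
  · rw [← hn, reindex_sum hO]
  · have hmν : S.mono ν ≠ 0 := lmono_ne_zero xx xx_ne_zero ν
    have h1 : ∀ i, Φ (N.LF i ^ n' i) =
        if emb i ∈ S.M then (S.P (emb i) / S.mono ν) ^ n (emb i) else 1 := by
      intro i
      by_cases hi : emb i ∈ S.M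
      · rw [if_pos hi]
        simp only [hn', if_pos hi]
        rw [map_zpow₀, Phi_LF hΦ, hν i, mul_div_cancel_left₀ _ hmν]
      · rw [if_neg hi]
        simp only [hn', if_neg hi]
        rw [zpow_zero, map_one]
    rw [map_prod, Finset.prod_congr rfl fun i _ => h1 i,
      ← reindex_prod hO (fun I => (S.P I / S.mono ν) ^ n I)]
    have h2 : ∀ I ∈ S.M, (S.P I / S.mono ν) ^ n I = S.P I ^ n I / S.mono ν ^ n I :=
      fun I _ => div_zpow _ _ _
    rw [Finset.prod_congr rfl h2, Finset.prod_div_distrib, ← zpow_sum₀ hmν, hn, zpow_zero, div_one]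

/-- chart monomials are degree zero monomials in the coordinates -/
theorem lam_mon (hO : FOk emb S) {m : S.V →₀ ℤ} (hm : m ∈ S.Lam) : S.mono m ∈ Mon S.M S.P := by
  have hp : ∀ I ∈ S.M, S.P I ≠ 0 := fun I hI => P_ne hO hI
  refine AddSubgroup.closure_induction (p := fun m _ => S.mono m ∈ Mon S.M S.P) ?_ ?_ ?_ ?_ hm
  · rintro _ ⟨I, hI, J, hJ, μ, hμ, ν, hν, rfl⟩
    have h1 := hO.g I hI μ hμ
    have h2 := hO.g J hJ ν hν
    have h3 := mon_quot hp hI hJ
    have hne : ∀ m : S.V →₀ ℤ, S.mono m ≠ 0 := fun m => lmono_ne_zero xx xx_ne_zero m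
    have e : S.mono (zexp μ - zexp ν) = S.P I / S.P J * (S.P J / S.mono (zexp ν)) /
        (S.P I / S.mono (zexp μ)) := by
      have e1 : S.mono (zexp μ - zexp ν) = S.mono (zexp μ) / S.mono (zexp ν) :=
        lmono_sub xx xx_ne_zero _ _
      rw [e1]
      have := hp I hI
      have := hp J hJ
      have := hne (zexp μ)
      have := hne (zexp ν)
      field_simp
    rw [e]
    exact mon_div hp (mon_mul hp h3 h2) h1
  · have : S.mono 0 = 1 := lmono_zero xx
    rw [this]
    exact mon_one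
  · intro x y _ _ hx hy
    have : S.mono (x + y) = S.mono x * S.mono y := lmono_add xx xx_ne_zero x y
    rw [this]
    exact mon_mul hp hx hy
  · intro x _ hx
    have : S.mono (-x) = (S.mono x)⁻¹ := lmono_neg xx x
    rw [this]
    exact mon_inv hx

theorem mono_sum (κ : Fin d →₀ ℕ) :
    S.mono (∑ j, (κ j : ℤ) • b j) = ∏ j, S.mono (b j) ^ κ j := by
  classical
  have hz : ∀ (m : S.V →₀ ℤ) (n : ℕ), S.mono ((n : ℤ) • m) = S.mono m ^ n := by
    intro m n
    induction n with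
    | zero =>
      rw [Nat.cast_zero, zero_smul, pow_zero]
      exact lmono_zero xx
    | succ n ih =>
      rw [Nat.cast_succ, add_smul, one_smul, pow_succ, ← ih]
      exact lmono_add xx xx_ne_zero _ _
  have hs : ∀ s : Finset (Fin d), S.mono (∑ j ∈ s, (κ j : ℤ) • b j) =
      ∏ j ∈ s, S.mono (b j) ^ κ j := by
    intro s
    induction s using Finset.induction_on with
    | empty =>
      rw [Finset.sum_empty, Finset.prod_empty]
      exact lmono_zero xx
    | insert j s hj ih =>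
      rw [Finset.sum_insert hj, Finset.prod_insert hj, ← hz, ← ih]
      exact lmono_add xx xx_ne_zero _ _
  exact hs Finset.univ

/-- the exponents of a normal form are exponents of the coordinate -/
theorem exists_exp (i : ι) (hν : S.P (emb i) = S.mono ν * evN (fun j => S.mono (b j)) (N.L i))
    {κ₀ : Fin d →₀ ℕ} (hκ₀ : κ₀ ∈ (N.L i).support) :
    ∃ μ ∈ (S.pol (emb i)).support, zexp μ = ν + ∑ j, (κ₀ j : ℤ) • b j := by
  classical
  set m : (Fin d →₀ ℕ) → (S.V →₀ ℤ) := fun κ => ν + ∑ j, (κ j : ℤ) • b j with hm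
  set N₀ : S.V →₀ ℕ := ∑ κ ∈ (N.L i).support,
    Finsupp.mapRange (fun z : ℤ => (-z).toNat) (by simp) (m κ) with hN₀
  set η : (Fin d →₀ ℕ) → (S.V →₀ ℕ) := fun κ =>
    Finsupp.mapRange Int.toNat (by simp) (zexp N₀ + m κ) with hη
  have hzexp : ∀ (μ : S.V →₀ ℕ) (v : S.V), (zexp μ) v = (μ v : ℤ) := fun μ v => rfl
  have hη' : ∀ κ ∈ (N.L i).support, zexp (η κ) = zexp N₀ + m κ := by
    intro κ hκ
    ext v
    rw [hzexp]
    simp only [hη, Finsupp.mapRange_apply, Finsupp.add_apply, hzexp]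
    have h1 : (-(m κ v)).toNat ≤ N₀ v := by
      rw [hN₀, Finsupp.finsetSum_apply]
      exact Finset.single_le_sum (f := fun κ => (Finsupp.mapRange (fun z : ℤ => (-z).toNat)
        (by simp) (m κ)) v) (fun _ _ => Nat.zero_le _) hκ
    omega
  have hmm : ∀ κ, S.mono (m κ) = S.mono ν * ∏ j, S.mono (b j) ^ κ j := by
    intro κ
    rw [← mono_sum]
    exact lmono_add xx xx_ne_zero _ _
  -- the polynomial identity
  have hinj : Function.Injective (fun q : MvPolynomial S.V ℕ =>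
      eval₂ (Nat.castRingHom S.F) S.x q) := by
    intro q q' h
    have h1 : ∀ q : MvPolynomial S.V ℕ, eval₂ (Nat.castRingHom S.F) S.x q =
        algebraMap (MvPolynomial S.V ℂ) S.F (map (Nat.castRingHom ℂ) q) := by
      intro q
      exact eval₂_xx q
    simp only [h1] at h
    exact map_injective (Nat.castRingHom ℂ) Nat.cast_injective
      (IsFractionRing.injective (MvPolynomial S.V ℂ) S.F h)
  have hpoly : monomial N₀ 1 * S.pol (emb i) =
      ∑ κ ∈ (N.L i).support, monomial (η κ) (coeff κ (N.L i)) := by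
    apply hinj
    have h2 : ∀ (μ : S.V →₀ ℕ) (c : ℕ), eval₂ (Nat.castRingHom S.F) S.x (monomial μ c) =
        (c : S.F) * S.mono (zexp μ) := by
      intro μ c
      rw [eval₂_monomial]
      congr 1
      exact (lmono_zexp xx μ).symm
    have h3 : eval₂ (Nat.castRingHom S.F) S.x (S.pol (emb i)) = S.P (emb i) := rfl
    simp only [eval₂_mul, eval₂_sum, h2, h3, Nat.cast_one, one_mul]
    rw [hν, evN, eval₂_eq', Finset.mul_sum, Finset.mul_sum]
    refine Finset.sum_congr rfl fun κ hκ => ?_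
    rw [hη' κ hκ]
    have h4 : S.mono (zexp N₀ + m κ) = S.mono (zexp N₀) * S.mono (m κ) :=
      lmono_add xx xx_ne_zero _ _
    rw [h4, hmm]
    simp only [eq_natCast]
    ring
  have hc := congrArg (coeff (η κ₀)) hpoly
  rw [coeff_sum] at hc
  have hpos : 0 < ∑ κ ∈ (N.L i).support, coeff (η κ₀) (monomial (η κ) (coeff κ (N.L i))) := by
    apply Finset.sum_pos'
    · intro κ _
      exact Nat.zero_le _
    · refine ⟨κ₀, hκ₀, ?_⟩
      rw [coeff_monomial, if_pos rfl]
      exact Nat.pos_of_ne_zero (mem_support_iff.mp hκ₀)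
  rw [← hc, coeff_monomial_mul'] at hpos
  split_ifs at hpos with hle
  · rw [one_mul] at hpos
    refine ⟨η κ₀ - N₀, mem_support_iff.mpr hpos.ne', ?_⟩
    ext v
    have h5 := DFunLike.congr_fun (hη' κ₀ hκ₀) v
    rw [hzexp, Finsupp.add_apply, hzexp] at h5
    rw [hzexp, Finsupp.tsub_apply, Nat.cast_sub (hle v), h5]
    ring
  · exact absurd hpos (lt_irrefl _)

theorem kprp (hK : KmonStmt) : KprpStmt := by
  classical
  intro ι _ emb S hO d N b a hN
  obtain ⟨Φ, hΦ⟩ := exists_Phi hK S b hN.ind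
  obtain ⟨ν, hν⟩ := hN.eq
  have hinj : Function.Injective Φ := Φ.toRingHom.injective
  have hGood : N.Good := by
    intro j
    obtain ⟨g, hg, hg'⟩ := transfer hO hΦ hν (lam_mon hO (hN.mem j))
    have : g = yv d j := hinj (hg'.trans (hΦ j).symm)
    rwa [← this]
  have hp : ∀ i ∈ N.M, N.LF i ≠ 0 := fun i hi => LF_ne N hi
  refine ⟨hGood, ?_, ?_⟩
  · intro i hi
    obtain ⟨κ₀, hκ₀⟩ := support_nonempty.mpr hi
    obtain ⟨μ, hμ, hμ'⟩ := exists_exp i (hν i) hκ₀
    have hM : emb i ∈ S.M := (mem_M_iff hO hΦ hν i).mp hi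
    obtain ⟨g, hg, hg'⟩ := transfer hO hΦ hν (hO.g (emb i) hM μ hμ)
    have h1 : Φ (g * ∏ j, yv d j ^ κ₀ j) = Φ (N.LF i) := by
      have hm1 : S.mono (zexp μ) = S.mono ν * ∏ j, S.mono (b j) ^ κ₀ j := by
        rw [hμ', ← mono_sum]
        exact lmono_add xx xx_ne_zero _ _
      have hne : ∀ m : S.V →₀ ℤ, S.mono m ≠ 0 := fun m => lmono_ne_zero xx xx_ne_zero m
      have hne2 : ∏ j, S.mono (b j) ^ κ₀ j ≠ 0 :=
        Finset.prod_ne_zero_iff.mpr fun j _ => pow_ne_zero _ (hne _)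
      rw [map_mul, hg', map_prod, Phi_LF hΦ, hν i, hm1]
      simp only [map_pow, hΦ]
      have := hne ν
      field_simp
    rw [← hinj h1]
    exact monI_mul hp hg (monI_prod hp _ _ fun j _ => monI_pow hp (hGood j) _)
  · ext i
    exact mem_M_iff hO hΦ hν i

end

end H18

end PosGeom
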