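import Pool.Agent.Helper18_ABCT.Cfrm

/-!
# NFRM (MP_a17fcb_ag)

Frames on the facet.
-/

open MvPolynomial

namespace PosGeom

namespace H18

variable {ι : Type} [Fintype ι]

/-- a monomial without the first variable -/
theorem exists_mon {K : Type} [Field K] {d : ℕ} (w : Fin d → K) (p : MvPolynomial (Fin (d + 1)) ℕ)
    (h : evN (Fin.cons 0 w : Fin (d + 1) → K) p ≠ 0) : ∃ μ ∈ p.support, μ 0 = 0 := by
  rw [evN, eval₂_eq] at h
  obtain ⟨μ, hμ, hne⟩ := Finset.exists_ne_zero_of_sum_ne_zero h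
  refine ⟨μ, hμ, ?_⟩
  by_contra h0
  apply hne
  have h1 : (0 : Fin (d + 1)) ∈ μ.support := Finsupp.mem_support_iff.mpr h0
  rw [Finset.prod_eq_zero h1, mul_zero]
  rw [Fin.cons_zero, zero_pow h0]

theorem cons_pos {d : ℕ} (b : Fin d → ℝ) (hb : ∀ k, 0 < b k) (p : MvPolynomial (Fin (d + 1)) ℕ)
    {μ : Fin (d + 1) →₀ ℕ} (hμ : μ ∈ p.support) (h0 : μ 0 = 0) :
    0 < evN (Fin.cons 0 b : Fin (d + 1) → ℝ) p := by
  refine evN_pos (fun i => ?_) hμ fun i hi => ?_
  · refine Fin.cases ?_ (fun k => ?_) i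
    · rw [Fin.cons_zero]
    · rw [Fin.cons_succ]; exact (hb k).le
  · revert hi
    refine Fin.cases ?_ (fun k => ?_) i
    · intro hi
      exact absurd h0 (Finsupp.mem_support_iff.mp hi)
    · intro _
      rw [Fin.cons_succ]; exact hb k

theorem posF_ne {d : ℕ} {f : Fd d} (hf : PosF f) : f ≠ 0 := by
  obtain ⟨N, D, hN, hD, rfl⟩ := hf
  have key : ∀ P : MvPolynomial (Fin d) ℕ, P ≠ 0 → evN (yv d) P ≠ 0 := by
    intro P hP h0
    have h1 : evN (yv d) P = algebraMap (MvPolynomial (Fin d) ℂ) (Fd d)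
        (map (Nat.castRingHom ℂ) P) := by
      rw [← evN_X, map_evN]
      rfl
    rw [h1] at h0
    have h2 := (IsFractionRing.injective (MvPolynomial (Fin d) ℂ) (Fd d)) (h0.trans (map_zero _).symm)
    exact hP (map_injective (Nat.castRingHom ℂ) Nat.cast_injective (by rw [h2, map_zero]))
  exact div_ne_zero (key N hN) (key D hD)

/-- a coordinate which does not vanish -/
theorem exists_coord (hS : SgenStmt) (hC : CfldStmt) {d : ℕ} (N : NCell ι d) (hG : N.Good) :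
    ∃ i, N.LF i ≠ 0 ∧ N.var.gen i ≠ 0 := by
  obtain ⟨i0, hi0⟩ := N.var.rel
  refine ⟨i0, ?_, (gen_ne_zero_iff hS _ _).mpr hi0⟩
  obtain ⟨-, -, -, h4⟩ := hC ι d N hG
  intro h0
  apply hi0
  rw [← h4 (X i0) 1 (isHomogeneous_X _ _), aeval_X]
  exact h0

theorem yv_ne (d : ℕ) (j : Fin d) : yv d j ≠ 0 := by
  intro h0
  have h2 := (IsFractionRing.injective (MvPolynomial (Fin d) ℂ) (Fd d)) (h0.trans (map_zero _).symm)
  exact X_ne_zero j h2

theorem nfrm (hP : SpecStmt) (hS : SgenStmt) (hR : SrealStmt) (hC : CfldStmt) (hF : FrmgStmt)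
    (hA : NadaStmt) (hV : NvalStmt) : NfrmStmt := by
  intro ι _ d N N' A L'' m h κ a hG hG' hNF e e' hE hE' z hz
  have hAd := hA ι d N N' A L'' m h κ a hG hG' hNF e e' hE hE'
  obtain ⟨-, hval⟩ := hV ι d N N' A L'' m h κ a hG hG' hNF e e' hE hE'
  obtain ⟨hr0, hrs⟩ := hval z hz
  choose b hb hb1 hb2 using hrs
  -- real points
  have hz' : z ∈ N'.var.RP := by
    rcases hz with hz | hz
    · obtain ⟨τ, x, hτ, hx, hzz⟩ := hz
      exact cell_RP N' z τ x hτ.ne' hx hzz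
    · obtain ⟨τ, x, hτ, hx, hzz⟩ := hz
      refine cell_RP N' z (-τ) x (neg_ne_zero.mpr hτ.ne') hx fun i => ?_
      have := hzz i
      rw [Pi.neg_apply] at this
      linarith
  have hzN : z ∈ N.var.RP := ⟨hz'.1, fun F hF => hz'.2 F (hAd.sub hF)⟩
  -- a coordinate of the facet
  obtain ⟨i1, hi1, hi1'⟩ := exists_coord hS hC N' hG'
  have hres1 : evN (Fin.cons 0 (fun j => yv d j * h j) : Fin (d + 1) → Fd d) (L'' i1) ≠ 0 := by
    rw [hNF.res]
    exact mul_ne_zero (posF_ne hNF.κpos) hi1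
  obtain ⟨μ, hμ, hμ0⟩ := exists_mon _ _ hres1
  have hpos := cons_pos b hb (L'' i1) hμ hμ0
  constructor
  · obtain ⟨i0, hi0, hi0'⟩ := exists_coord hS hC N hG
    have hey : ∀ j, (e : N.var.K →ₐ[ℂ] Fd (d + 1)) (N.chA e A j) = ∏ k, yv (d + 1) k ^ A j k := by
      intro j
      rw [NCell.chA, map_prod]
      refine Finset.prod_congr rfl fun k _ => ?_
      rw [map_zpow₀]
      congr 1
      exact AlgEquiv.apply_symm_apply e _
    have hv : (∏ j, yv (d + 1) j ^ m j) ≠ 0 :=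
      Finset.prod_ne_zero_iff.mpr fun j _ => zpow_ne_zero _ (yv_ne _ j)
    have hgl : ∀ i, N.LF i = (∏ j, yv (d + 1) j ^ m j) *
        aeval (fun j => (e : N.var.K →ₐ[ℂ] Fd (d + 1)) (N.chA e A j))
          (map (Nat.castRingHom ℂ) (L'' i)) := by
      intro i
      rw [aeval_mapN, hNF.eq i]
      simp only [hey]
    obtain ⟨u, hu, hgen⟩ := gen_eq hS N.var N.LF (e : N.var.K →ₐ[ℂ] Fd (d + 1)) hE (N.chA e A)
      (fun i => map (Nat.castRingHom ℂ) (L'' i)) _ hv hgl i0 hi0 hi0'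
    have hrv : ∀ j, N.var.RVal z (N.chA e A j) ((Fin.cons 0 b : Fin (d + 1) → ℝ) j) := by
      intro j
      refine Fin.cases ?_ (fun k => ?_) j
      · rw [Fin.cons_zero]; exact hr0
      · rw [Fin.cons_succ]; exact hb1 k
    have hvv : ∀ j, N.var.Val z (N.chA e A j) (((Fin.cons 0 b : Fin (d + 1) → ℝ) j : ℝ) : ℂ) :=
      fun j => (hR ι N.var z hzN).1 _ _ (hrv j)
    refine frame_main hP hS hF N.var hzN (N.chA e A) _ _ u hu hgen hrv hvv i1 ?_
    rw [aeval_mapN]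
    have h5 := map_evN Complex.ofRealHom (Fin.cons 0 b : Fin (d + 1) → ℝ) (L'' i1)
    intro h0
    exact hpos.ne' (Complex.ofRealHom.injective ((h5.trans h0).trans (map_zero _).symm))
  · let L' : ι → MvPolynomial (Fin d) ℂ := fun i =>
      evN (Fin.cons 0 (fun j => X j) : Fin (d + 1) → MvPolynomial (Fin d) ℂ) (L'' i)
    have hL' : ∀ {R : Type} [CommRing R] [Algebra ℂ R] (w : Fin d → R) (i : ι),
        aeval w (L' i) = evN (Fin.cons 0 w : Fin (d + 1) → R) (L'' i) := by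
      intro R _ _ w i
      have h1 := map_evN ((aeval w : MvPolynomial (Fin d) ℂ →ₐ[ℂ] R) :
        MvPolynomial (Fin d) ℂ →+* R)
        (Fin.cons 0 (fun j => X j) : Fin (d + 1) → MvPolynomial (Fin d) ℂ) (L'' i)
      have h2 : (fun j => ((aeval w : MvPolynomial (Fin d) ℂ →ₐ[ℂ] R) :
          MvPolynomial (Fin d) ℂ →+* R)
          ((Fin.cons 0 (fun j => X j) : Fin (d + 1) → MvPolynomial (Fin d) ℂ) j)) =
          (Fin.cons 0 w : Fin (d + 1) → R) := by
        funext j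
        refine Fin.cases ?_ (fun k => ?_) j
        · simp
        · simp
      rw [h2] at h1
      exact h1
    have hey : (fun j => (e' : N'.var.K →ₐ[ℂ] Fd d) (N'.chT e' h j)) =
        fun j => yv d j * h j := by
      funext j
      exact AlgEquiv.apply_symm_apply e' _
    have hgl : ∀ i, N'.LF i = κ⁻¹ *
        aeval (fun j => (e' : N'.var.K →ₐ[ℂ] Fd d) (N'.chT e' h j)) (L' i) := by
      intro i
      rw [hey, hL', hNF.res, ← mul_assoc, inv_mul_cancel₀ (posF_ne hNF.κpos), one_mul]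
    obtain ⟨u, hu, hgen⟩ := gen_eq hS N'.var N'.LF (e' : N'.var.K →ₐ[ℂ] Fd d) hE' (N'.chT e' h)
      L' _ (inv_ne_zero (posF_ne hNF.κpos)) hgl i1 hi1 hi1'
    have hvv : ∀ j, N'.var.Val z (N'.chT e' h j) ((b j : ℝ) : ℂ) :=
      fun j => (hR ι N'.var z hz').1 _ _ (hb2 j)
    refine frame_main hP hS hF N'.var hz' (N'.chT e' h) b L' u hu hgen hb2 hvv i1 ?_
    rw [hL']
    have h3 : (Fin.cons 0 (fun j => ((b j : ℝ) : ℂ)) : Fin (d + 1) → ℂ) =
        fun j => Complex.ofRealHom ((Fin.cons 0 b : Fin (d + 1) → ℝ) j) := by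
      funext j
      refine Fin.cases ?_ (fun k => ?_) j
      · simp
      · simp
    rw [h3, ← map_evN Complex.ofRealHom]
    have : evN (Fin.cons 0 b : Fin (d + 1) → ℝ) (L'' i1) ≠ 0 := hpos.ne'
    exact fun h0 => this (Complex.ofRealHom.injective (h0.trans (map_zero _).symm))

end H18

end PosGeom
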